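import Pool.Agent.MP_bd94e8_al.H89.Spec

/-! Row V12: the inequalities for valued vertices. -/

set_option autoImplicit false
set_option linter.unusedSectionVars false

namespace Pool.Agent.MP_bd94e8_al.H89

open Module Function

namespace V12A

section form
variable {A : Type} [Fintype A] [DecidableEq A] (G : A → A → ℤ)

theorem bil_add_left (x y z : A → ℤ) : bil G (x + y) z = bil G x z + bil G y z := by
  simp only [bil, Pi.add_apply, add_mul, Finset.sum_add_distrib]

theorem bil_add_right (x y z : A → ℤ) : bil G x (y + z) = bil G x y + bil G x z := by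
  simp only [bil, Pi.add_apply, mul_add, Finset.sum_add_distrib]

theorem bil_smul_left (c : ℤ) (x y : A → ℤ) : bil G (c • x) y = c * bil G x y := by
  simp only [bil, Pi.smul_apply, smul_eq_mul, Finset.mul_sum, mul_assoc]

theorem bil_smul_right (c : ℤ) (x y : A → ℤ) : bil G x (c • y) = c * bil G x y := by
  simp only [bil, Pi.smul_apply, smul_eq_mul, Finset.mul_sum]
  exact Finset.sum_congr rfl fun a _ => Finset.sum_congr rfl fun b _ => by ring

theorem bil_single_right (x : A → ℤ) (b : A) : bil G x (Pi.single b 1) = gr G x b := by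
  simp [bil, gr, Pi.single_apply]

theorem gr_single (a b : A) : gr G (Pi.single a 1) b = G a b := by
  simp [gr, Pi.single_apply]

theorem gr_add (x y : A → ℤ) (b : A) : gr G (x + y) b = gr G x b + gr G y b := by
  simp only [gr, Pi.add_apply, add_mul, Finset.sum_add_distrib]

theorem gr_smul (c : ℤ) (x : A → ℤ) (b : A) : gr G (c • x) b = c * gr G x b := by
  simp only [gr, Pi.smul_apply, smul_eq_mul, Finset.mul_sum, mul_assoc]

theorem bil_single_left (hs : ∀ a b, G a b = G b a) (x : A → ℤ) (b : A) :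
    bil G (Pi.single b 1) x = gr G x b := by
  rw [bil, Finset.sum_eq_single b (fun a _ h => by simp [Pi.single_eq_of_ne h]) (by simp), gr]
  exact Finset.sum_congr rfl fun a _ => by rw [Pi.single_eq_same, hs b a]; ring

end form

variable {k F : Type} [Field k] [Field F] [Algebra k F] [FiniteDimensional k F] {Pt ι : Type}
  [Fintype Pt] [DecidableEq Pt] {T I O : Type} [Fintype T] [DecidableEq T] [Fintype I] [Fintype O]

/-- the data extracted from the cover -/
structure Dat (P Pf : Prob k F Pt ι Unit) (val : Set ι) (J : Prob k F T I O) (π : T → Pt)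
    (ζ : I → ι) : Prop where
  zt : ∀ t, ζ (J.vt t) = P.vt (π t)
  inj : ∀ t t', J.vt t = J.vt t' → π t = π t' → t = t'
  uniq : ∀ t t', ζ (J.vt t) ∈ val → J.vt t = J.vt t' → t = t'
  lift : ∀ b ∈ Pf.B, ∀ i j, ∃ m ∈ J.H i j, ∀ t t', J.vt t = i → J.vt t' = j → J.pk t' = J.pk t →
    m t' t = b (π t') (π t)
  le : P.B ≤ Pf.B
  fat : ∀ z ∈ val, ∀ c, P.In z z c → c ∈ Pf.B
  surj : Surjective J.vt

/-- admissible copy labels -/
def Good (vt : Pt → ι) (val : Set ι) (z : ι) : Option Pt → Prop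
  | none => z ∉ val
  | some p => z ∈ val ∧ vt p = z

/-- the copies of a vertex -/
def Cp (vt : Pt → ι) (val : Set ι) (z : ι) : Type := {u : Option Pt // Good vt val z u}

noncomputable instance (vt : Pt → ι) (val : Set ι) (z : ι) : Fintype (Cp vt val z) := by
  classical
  exact inferInstanceAs (Fintype {u : Option Pt // Good vt val z u})

theorem card_neg {vt : Pt → ι} {val : Set ι} {z : ι} (h : z ∉ val) :
    Fintype.card (Cp vt val z) = 1 := by
  refine Fintype.card_eq_one_iff.2 ⟨⟨none, h⟩, ?_⟩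
  rintro ⟨_ | p, hp⟩
  · rfl
  · exact (h hp.1).elim

theorem card_pos {vt : Pt → ι} {val : Set ι} {z : ι} (h : z ∈ val) :
    Fintype.card (Cp vt val z) = Nat.card {p // vt p = z} := by
  rw [← Nat.card_eq_fintype_card]
  refine (Nat.card_eq_of_bijective (fun p : {p // vt p = z} =>
    (⟨some p.1, h, p.2⟩ : Cp vt val z)) ⟨?_, ?_⟩).symm
  · intro p q e
    exact Subtype.ext (Option.some.inj (congrArg Subtype.val e))
  · rintro ⟨_ | p, hp⟩
    · exact (hp h).elim
    · exact ⟨⟨p, hp.2⟩, rfl⟩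

variable {P Pf : Prob k F Pt ι Unit} {val : Set ι} {J : Prob k F T I O} {π : T → Pt} {ζ : I → ι}

/-- the test points -/
def TT (P : Prob k F Pt ι Unit) (val : Set ι) (J : Prob k F T I O) (ζ : I → ι) : Type :=
  Σ t : T, Cp P.vt val (ζ (J.vt t))

noncomputable instance : Fintype (TT P val J ζ) :=
  inferInstanceAs (Fintype (Σ t : T, Cp P.vt val (ζ (J.vt t))))

noncomputable instance : DecidableEq (TT P val J ζ) := Classical.decEq _

/-- the point below a test point -/
def pt (π : T → Pt) (x : TT P val J ζ) : Pt := x.2.1.getD (π x.1)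

theorem TT.ext {x y : TT P val J ζ} (h1 : x.1 = y.1) (h2 : x.2.1 = y.2.1) : x = y := by
  obtain ⟨t, u, hu⟩ := x
  obtain ⟨t', u', hu'⟩ := y
  cases h1
  cases h2
  rfl

theorem pt_inj (D : Dat P Pf val J π ζ) (x y : TT P val J ζ) (h : J.vt x.1 = J.vt y.1)
    (e : pt π x = pt π y) : x = y := by
  obtain ⟨t, _ | p, hu⟩ := x <;> obtain ⟨t', _ | p', hu'⟩ := y
  · exact TT.ext (D.inj _ _ h e) rfl
  · exact (hu (by have := hu'.1; rwa [← show J.vt t = J.vt t' from h] at this)).elim
  · exact (hu' (by have := hu.1; rwa [show J.vt t = J.vt t' from h] at this)).elim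
  · exact TT.ext (D.uniq _ _ hu.1 h) (congrArg some e)

theorem vt_pt (D : Dat P Pf val J π ζ) (x : TT P val J ζ) : P.vt (pt π x) = ζ (J.vt x.1) := by
  obtain ⟨t, _ | p, hu⟩ := x
  · exact (D.zt t).symm
  · exact hu.2

/-- the masked matrix of the test -/
noncomputable def Mk (π : T → Pt) (i j : I) :
    Matrix Pt Pt F →ₗ[k] Matrix (TT P val J ζ) (TT P val J ζ) F where
  toFun b := mask (fun x' x => J.vt x.1 = i ∧ J.vt x'.1 = j ∧ J.pk x'.1 = J.pk x.1)
    (b.submatrix (pt π) (pt π))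
  map_add' a b := by
    ext x' x
    simp only [mask_apply, Matrix.add_apply, Matrix.submatrix_apply]
    split_ifs <;> simp
  map_smul' c a := by
    ext x' x
    simp only [mask_apply, Matrix.smul_apply, Matrix.submatrix_apply, RingHom.id_apply]
    split_ifs <;> simp

theorem Mk_apply (i j : I) (b : Matrix Pt Pt F) :
    (Mk π i j b : Matrix (TT P val J ζ) (TT P val J ζ) F) =
      mask (fun x' x => J.vt x.1 = i ∧ J.vt x'.1 = j ∧ J.pk x'.1 = J.pk x.1)
        (b.submatrix (pt π) (pt π)) := rfl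

/-- the space of the test -/
noncomputable def SS (P : Prob k F Pt ι Unit) (val : Set ι) (J : Prob k F T I O) (π : T → Pt)
    (ζ : I → ι) (i j : I) : Submodule k (Matrix (TT P val J ζ) (TT P val J ζ) F) :=
  (Subalgebra.toSubmodule P.B).map (Mk π i j)

theorem SS_diag (D : Dat P Pf val J π ζ) (i : I) :
    finrank k (SS P val J π ζ i i) ≤ finrank k (P.H (ζ i) (ζ i)) := by
  refine le_trans (Submodule.finrank_mono ?_)
    (Submodule.finrank_map_le (Mk (P := P) (val := val) (J := J) (ζ := ζ) π i i) _)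
  rintro _ ⟨b, hb, rfl⟩
  refine ⟨_, P.blk_mem hb (ζ i) (ζ i), ?_⟩
  ext x' x
  simp only [Mk_apply, mask_apply, Matrix.submatrix_apply]
  split_ifs with h
  · exact P.blk_pos b (by rw [vt_pt D, h.1]) (by rw [vt_pt D, h.2.1])
  · rfl

/-- spread a matrix of the cover over the copies `u`, `w` -/
noncomputable def Sp (P : Prob k F Pt ι Unit) (val : Set ι) (J : Prob k F T I O) (ζ : I → ι)
    (u w : Option Pt) : Matrix T T F →ₗ[k] Matrix (TT P val J ζ) (TT P val J ζ) F where
  toFun m := mask (fun x' x => x.2.1 = u ∧ x'.2.1 = w) (m.submatrix (fun x => x.1) fun x => x.1)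
  map_add' a b := by
    ext x' x
    simp only [mask_apply, Matrix.add_apply, Matrix.submatrix_apply]
    split_ifs <;> simp
  map_smul' c a := by
    ext x' x
    simp only [mask_apply, Matrix.smul_apply, Matrix.submatrix_apply, RingHom.id_apply]
    split_ifs <;> simp

theorem Sp_apply (u w : Option Pt) (m : Matrix T T F) :
    Sp P val J ζ u w m = mask (fun x' x => x.2.1 = u ∧ x'.2.1 = w)
      (m.submatrix (fun x => x.1) fun x => x.1) := rfl

theorem col (D : Dat P Pf val J π ζ) (i : I) (u : Cp P.vt val (ζ i)) :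
    ∃ c ∈ Pf.B, ∀ (b : Matrix Pt Pt F) (q : Pt) (x : TT P val J ζ), J.vt x.1 = i → x.2.1 = u.1 →
      (b * c) q (π x.1) = b q (pt π x) := by
  obtain ⟨_ | p, hu⟩ := u
  · exact ⟨1, Pf.B.one_mem, fun b q x _ e => by rw [mul_one, pt, e]; rfl⟩
  · obtain ⟨t, rfl⟩ := D.surj i
    refine ⟨Matrix.single p (π t) 1, D.fat _ hu.1 _ fun q' p' h => ?_, fun b q x h e => ?_⟩
    · by_cases e : p = q' ∧ π t = p'
      · obtain ⟨rfl, rfl⟩ := e
        exact ⟨(D.zt t).symm, hu.2⟩
      · exact (h (Matrix.single_apply_of_ne _ _ _ _ _ e)).elim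
    · rw [pt, e, ← D.uniq t x.1 hu.1 h.symm]
      simp

theorem row (D : Dat P Pf val J π ζ) (i : I) (u : Cp P.vt val (ζ i)) :
    ∃ c ∈ Pf.B, ∀ (b : Matrix Pt Pt F) (q : Pt) (x : TT P val J ζ), J.vt x.1 = i → x.2.1 = u.1 →
      (c * b) (π x.1) q = b (pt π x) q := by
  obtain ⟨_ | p, hu⟩ := u
  · exact ⟨1, Pf.B.one_mem, fun b q x _ e => by rw [one_mul, pt, e]; rfl⟩
  · obtain ⟨t, rfl⟩ := D.surj i
    refine ⟨Matrix.single (π t) p 1, D.fat _ hu.1 _ fun q' p' h => ?_, fun b q x h e => ?_⟩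
    · by_cases e : π t = q' ∧ p = p'
      · obtain ⟨rfl, rfl⟩ := e
        exact ⟨hu.2, (D.zt t).symm⟩
      · exact (h (Matrix.single_apply_of_ne _ _ _ _ _ e)).elim
    · rw [pt, e, ← D.uniq t x.1 hu.1 h.symm]
      simp

theorem SS_le (D : Dat P Pf val J π ζ) (i j : I) :
    finrank k (SS P val J π ζ i j) ≤
      Fintype.card (Cp P.vt val (ζ i)) * Fintype.card (Cp P.vt val (ζ j)) * finrank k (J.H i j) := by
  classical
  have hfin : Module.Finite k (J.H i j) := FiniteDimensional.finiteDimensional_submodule _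
  let Ψ : (Cp P.vt val (ζ i) × Cp P.vt val (ζ j) → J.H i j) →ₗ[k]
      Matrix (TT P val J ζ) (TT P val J ζ) F :=
    ∑ u, Sp P val J ζ u.1.1 u.2.1 ∘ₗ (J.H i j).subtype ∘ₗ LinearMap.proj u
  have h1 : SS P val J π ζ i j ≤ LinearMap.range Ψ := by
    rintro _ ⟨b, hb, rfl⟩
    choose c hc hc' using col D i
    choose r hr hr' using row D j
    have hm := fun u : Cp P.vt val (ζ i) × Cp P.vt val (ζ j) =>
      D.lift (r u.2 * (b * c u.1)) (Pf.B.mul_mem (hr _) (Pf.B.mul_mem (D.le hb) (hc _))) i j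
    choose m hm hm' using hm
    refine ⟨fun u => ⟨m u, hm u⟩, ?_⟩
    ext x' x
    simp only [Ψ, LinearMap.sum_apply, LinearMap.comp_apply, LinearMap.proj_apply,
      Submodule.subtype_apply, Matrix.sum_apply]
    by_cases h : J.vt x.1 = i ∧ J.vt x'.1 = j ∧ J.pk x'.1 = J.pk x.1
    · obtain ⟨rfl, rfl, h3⟩ := h
      rw [Finset.sum_eq_single (x.2, x'.2), Sp_apply, mask_pos _ ⟨rfl, rfl⟩, Mk_apply,
        mask_pos _ ⟨rfl, rfl, h3⟩, Matrix.submatrix_apply, Matrix.submatrix_apply,
        hm' _ _ _ rfl rfl h3, hr' _ _ _ x' rfl rfl, hc' _ _ _ x rfl rfl]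
      · intro u _ hu
        rw [Sp_apply]
        exact mask_neg _ fun e => hu (Prod.ext (Subtype.ext e.1.symm) (Subtype.ext e.2.symm))
      · simp
    · rw [Mk_apply, mask_apply, if_neg h]
      refine Finset.sum_eq_zero fun u _ => ?_
      by_contra h0
      rw [Sp_apply] at h0
      have h2 := (mask_ne h0).2
      exact h ⟨((hm u).2 _ _ h2).1, ((hm u).2 _ _ h2).2, J.peak _ (hm u).1 _ _ h2⟩
  refine (Submodule.finrank_mono h1).trans ((LinearMap.finrank_range_le Ψ).trans ?_)
  rw [Module.finrank_pi_fintype]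
  simp

theorem test (D : Dat P Pf val J π ζ) (hH : Hyp P.B) (d : I → ℕ) (v : O → ℕ)
    (h0 : d ≠ 0 ∨ v ≠ 0) :
    (∑ t, Fintype.card (Cp P.vt val (ζ (J.vt t))) * d (J.vt t) * v (J.pk t)) * finrank k F <
      (∑ o, v o ^ 2) * finrank k F + ∑ i, ∑ j, d i * d j * finrank k (SS P val J π ζ i j) := by
  let α : Matrix Pt (TT P val J ζ) F := (1 : Matrix Pt Pt F).submatrix id (pt π)
  let γ : Matrix (TT P val J ζ) Pt F := (1 : Matrix Pt Pt F).submatrix (pt π) id
  have hb : ∀ b : Matrix Pt Pt F, γ * b * α = b.submatrix (pt π) (pt π) := by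
    intro b
    ext x' x
    simp [α, γ, Matrix.mul_apply, Matrix.one_apply]
  have := hH F LinearMap.id rfl (TT P val J ζ) I O (fun x => J.vt x.1) (fun x => J.pk x.1)
    (fun i => by
      obtain ⟨t, rfl⟩ := D.surj i
      by_cases h : ζ (J.vt t) ∈ val
      · exact ⟨⟨t, some (π t), h, (D.zt t).symm⟩, rfl⟩
      · exact ⟨⟨t, none, h⟩, rfl⟩) α γ
    (fun x x' h => by
      have := hb 1
      rw [Matrix.mul_one] at this
      rw [this, Matrix.submatrix_apply]
      by_cases e : x = x'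
      · subst e; simp
      · rw [Matrix.one_apply_ne e, Matrix.one_apply_ne fun e' => e (pt_inj D x x' h e')])
    (SS P val J π ζ) (fun i j b hb' => ⟨b, hb', by rw [hb]; rfl⟩) d v h0
  have e : ∑ x : TT P val J ζ, d (J.vt x.1) * v (J.pk x.1) =
      ∑ t, Fintype.card (Cp P.vt val (ζ (J.vt t))) * d (J.vt t) * v (J.pk t) := by
    refine (Fintype.sum_sigma (fun x : Σ t : T, Cp P.vt val (ζ (J.vt t)) =>
      d (J.vt x.1) * v (J.pk x.1))).trans (Finset.sum_congr rfl fun t _ => ?_)
    simp [mul_assoc]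
  rwa [e] at this

theorem key (D : Dat P Pf val J π ζ) (hH : Hyp P.B) (hd : ∀ i, finrank k (J.H i i) = finrank k F)
    (hb : ∀ d v, bil (gram J) (vec d v) (vec d v) * finrank k F +
      2 * ((∑ p, d (J.vt p) * v (J.pk p)) * finrank k F : ℕ) =
      2 * ((∑ o, v o ^ 2) * finrank k F + ∑ i, ∑ j, d i * d j * finrank k (J.H i j) : ℕ))
    (b : I → ℕ) (hnum : ∀ i, ζ i ∈ val →
      Fintype.card (Cp P.vt val (ζ i)) * finrank k F = b i * finrank k (P.H (ζ i) (ζ i)))
    (y m : I → ℕ) (v : O → ℕ) (hy : ∀ i, ζ i ∈ val → y i = 0) (hm : ∀ i, ζ i ∉ val → m i = 0)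
    (h0 : ∃ i, b i * m i ≠ 0) (n : I → ℕ) (hn : ∀ i, n i = Fintype.card (Cp P.vt val (ζ i)) * b i) :
    2 * ∑ i, ((n i : ℤ) * m i) ^ 2 <
      bil (gram J) (vec (fun i => y i + n i * m i) v) (vec (fun i => y i + n i * m i) v) +
        2 * ∑ i, (n i : ℤ) * (m i) ^ 2 := by
  classical
  have ht := test D hH (fun i => y i + b i * m i) v (Or.inl fun e => by
    obtain ⟨i, hi⟩ := h0
    have := congrFun e i
    simp only [Pi.zero_apply] at this
    omega)
  have ha : ∀ i, Fintype.card (Cp P.vt val (ζ i)) * (y i + b i * m i) = y i + n i * m i := by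
    intro i
    by_cases h : ζ i ∈ val
    · rw [hy i h, hn]; ring
    · rw [hm i h, card_neg h]; ring
  simp only [ha] at ht
  have hterm : ∀ i j, (y i + b i * m i) * (y j + b j * m j) * finrank k (SS P val J π ζ i j) +
      (if j = i then (n i * m i) ^ 2 * finrank k F else 0) ≤
      (y i + n i * m i) * (y j + n j * m j) * finrank k (J.H i j) +
      (if j = i then n i * m i ^ 2 * finrank k F else 0) := by
    intro i j
    have h1 : (y i + b i * m i) * (y j + b j * m j) * finrank k (SS P val J π ζ i j) ≤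
        (y i + n i * m i) * (y j + n j * m j) * finrank k (J.H i j) := by
      rw [← ha, ← ha]
      exact (Nat.mul_le_mul_left _ (SS_le D i j)).trans (le_of_eq (by ring))
    split_ifs with e
    · subst e
      by_cases h : ζ j ∈ val
      · have h2 := Nat.mul_le_mul_left (b j * m j * (b j * m j)) (SS_diag D j)
        have h3 : b j * m j * (b j * m j) * finrank k (P.H (ζ j) (ζ j)) =
            n j * m j ^ 2 * finrank k F := by
          calc _ = b j * m j ^ 2 * (b j * finrank k (P.H (ζ j) (ζ j))) := by ring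
            _ = _ := by rw [← hnum j h, hn]; ring
        rw [hy j h, hd, zero_add, zero_add, sq]
        omega
      · rw [hm j h] at h1 ⊢
        simpa using h1
    · simpa using h1
  have hs := Finset.sum_le_sum fun i (_ : i ∈ Finset.univ) =>
    Finset.sum_le_sum fun j (_ : j ∈ Finset.univ) => hterm i j
  simp only [Finset.sum_add_distrib, Finset.sum_ite_eq', Finset.mem_univ, if_true,
    ← Finset.sum_mul] at hs
  have h4 := hb (fun i => y i + n i * m i) v
  have hf : (0 : ℤ) < finrank k F := by exact_mod_cast Module.finrank_pos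
  refine lt_of_mul_lt_mul_right ?_ hf.le
  have e1 : ∑ i, ((n i : ℤ) * m i) ^ 2 = ((∑ i, (n i * m i) ^ 2 : ℕ) : ℤ) := by push_cast; rfl
  have e2 : ∑ i, (n i : ℤ) * (m i) ^ 2 = ((∑ i, n i * m i ^ 2 : ℕ) : ℤ) := by push_cast; rfl
  rw [e1, e2]
  generalize (∑ i, (n i * m i) ^ 2) = X at hs ⊢
  generalize (∑ i, n i * m i ^ 2) = Y at hs ⊢
  generalize bil (gram J) _ _ = Q at h4 ⊢
  have hs' := Int.ofNat_le.2 hs
  have ht' := Int.ofNat_lt.2 ht
  rw [Nat.cast_add] at h4 ht'
  rw [Nat.cast_add, Nat.cast_add, Nat.cast_mul X, Nat.cast_mul Y] at hs'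
  linarith

theorem dat {S : Pt → Prop} [DecidablePred S] {h : SubOk Pf S} (hS : IsRep P.vt val S)
    (hV : Val P Pf val) {π : T → {p // S p}} (hC : Cover J (Pf.sub S h) π)
    (hs : Surjective J.vt) : ∃ ζ, Dat P Pf val J (fun t => (π t).1) ζ := by
  have hvt : ∀ t t', J.vt t = J.vt t' → P.vt (π t).1 = P.vt (π t').1 := fun t t' e => by
    have := hC.vt_eq t t' e
    rw [← hV.vt]
    exact this
  have hz : ∀ t, P.vt (π (surjInv hs (J.vt t))).1 = P.vt (π t).1 :=
    fun t => hvt _ _ (surjInv_eq hs _)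
  refine ⟨fun i => P.vt (π (surjInv hs i)).1, hz, fun t t' e e' => hC.inj t t' e (Subtype.ext e'),
    fun t t' hv e => hC.inj t t' e (Subtype.ext ?_), ?_, hV.le, hV.fat, hs⟩
  · rw [hz] at hv
    exact (hS.2 _ hv).unique ⟨rfl, (π t).2⟩ ⟨(hvt t t' e).symm, (π t').2⟩
  · intro b hb i j
    obtain ⟨h', hh', e⟩ := hC.homog _ ⟨b, hb, rfl⟩ i j
    have hin : J.In i j (J.blk i j (h'.submatrix π π)) := fun _ _ h => (mask_ne h).1
    refine ⟨J.blk i j (h'.submatrix π π), ⟨(hC.mem _).2 ⟨fun t' t h0 => ?_, fun i' j' => ?_⟩, hin⟩,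
      fun t t' hi hj hp => ?_⟩
    · by_contra hp
      exact (mask_ne h0).2 ((e t t' (hin _ _ h0).1 (hin _ _ h0).2).2 hp)
    · by_cases e' : i' = i ∧ j' = j
      · exact ⟨h', hh', fun t t' hi hj => J.blk_pos _ (hi.trans e'.1) (hj.trans e'.2)⟩
      · exact ⟨0, zero_mem _, fun t t' hi hj => J.blk_neg _ fun h =>
          e' ⟨hi.symm.trans h.1, hj.symm.trans h.2⟩⟩
    · rw [J.blk_pos _ hi hj]
      exact (e t t' hi hj).1 hp

end V12A

open V12A in
theorem v12 (hG : SGram) : SV12 := by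
  intro k F _ _ _ _ Pt ι _ _ _ P Pf val ht S _ h hF hH hS hV T I O _ _ _ _ J π L hC hT hW
  classical
  obtain ⟨ζ, D⟩ := dat hS hV hC hT.surj
  obtain ⟨hU, -, -, -, hd, -, hb⟩ := hG k F T I O J L hT hW
  have hset : {i | ∃ t, J.vt t = i ∧ P.vt (π t).1 ∈ val} = {i | ζ i ∈ val} := by
    ext i
    constructor
    · rintro ⟨t, rfl, h⟩
      show ζ (J.vt t) ∈ val
      rwa [D.zt t]
    · intro h
      obtain ⟨t, rfl⟩ := hT.surj i
      exact ⟨t, rfl, D.zt t ▸ h⟩
  rw [hset]
  have hnum : ∀ i, ∃ b : ℕ, ζ i ∈ val →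
      Fintype.card (Cp P.vt val (ζ i)) * finrank k F = b * finrank k (P.H (ζ i) (ζ i)) ∧
        2 ≤ Fintype.card (Cp P.vt val (ζ i)) * b := by
    intro i
    by_cases h : ζ i ∈ val
    · obtain ⟨b, hb⟩ := hF.num _ h
      exact ⟨b, fun _ => by rwa [card_pos h]⟩
    · exact ⟨0, fun h' => (h h').elim⟩
  choose b hb' using hnum
  let n : I → ℕ := fun i => Fintype.card (Cp P.vt val (ζ i)) * b i
  have hn : ∀ i, ζ i ∈ val → (2 : ℤ) ≤ n i := fun i h => by exact_mod_cast (hb' i h).2
  have hb0 : ∀ i, ζ i ∈ val → b i ≠ 0 := fun i h e => by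
    have := (hb' i h).2
    rw [e] at this
    omega
  have K : ∀ y : I ⊕ O → ℤ, 0 ≤ y → (∀ j ∈ {i | ζ i ∈ val}, y (.inl j) = 0) → ∀ m : I → ℕ,
      (∀ i, ζ i ∉ val → m i = 0) → (∃ i, b i * m i ≠ 0) → ∀ w : I ⊕ O → ℤ,
      (∀ i, w (.inl i) = n i * m i) → (∀ o, w (.inr o) = 0) →
      2 * ∑ i, ((n i : ℤ) * m i) ^ 2 < bil (gram J) ((2 : ℤ) • y + w) ((2 : ℤ) • y + w) +
        2 * ∑ i, (n i : ℤ) * (m i) ^ 2 := by
    intro y hy hy0 m hm h0 w hw hw'
    have := key D hH hd hb b (fun i h => (hb' i h).1) (fun i => 2 * (y (.inl i)).toNat) m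
      (fun o => 2 * (y (.inr o)).toNat) (fun i h => by rw [hy0 i h]; rfl) hm h0 n fun _ => rfl
    have e : vec (fun i => 2 * (y (.inl i)).toNat + n i * m i) (fun o => 2 * (y (.inr o)).toNat) =
        (2 : ℤ) • y + w := by
      funext a
      rcases a with i | o
      · simpa [vec, hw] using hy (.inl i)
      · simpa [vec, hw'] using hy (.inr o)
    rwa [e] at this
  refine ⟨?_, ?_, ?_⟩
  · intro z hz
    obtain ⟨t, rfl⟩ := hT.surj z
    refine ⟨J.pk t, ?_, fun o ho => ?_⟩
    · simp only [gram]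
      exact if_pos ⟨t, rfl, rfl⟩
    · simp only [gram] at ho
      split_ifs at ho with h1
      obtain ⟨t', e, rfl⟩ := h1
      rw [D.uniq t t' hz e.symm]
  · intro z hz y hy hy0 hA
    obtain ⟨A, hA'⟩ := Int.eq_ofNat_of_zero_le (neg_nonneg.2 hA.le)
    have hA0 : A ≠ 0 := by omega
    have := K y hy hy0 (Pi.single z A)
      (fun i hi => Pi.single_eq_of_ne (fun e : i = z => hi (by rw [e]; exact hz)) _)
      ⟨z, by simp [hb0 z hz, hA0]⟩ (((n z : ℤ) * A) • Pi.single (.inl z) 1)
      (fun i => by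
        by_cases e : i = z
        · subst e; simp
        · simp [e]) (fun o => by simp)
    rw [Finset.sum_eq_single z (fun i _ e => by simp [e]) (by simp),
      Finset.sum_eq_single z (fun i _ e => by simp [e]) (by simp)] at this
    simp only [bil_add_left, bil_add_right, bil_smul_left, bil_smul_right, bil_single_right,
      bil_single_left _ hU.symm, gr_add, gr_smul, gr_single, hU.diag, Pi.single_eq_same] at this
    have e : gr (gram J) y (.inl z) = -A := by omega
    rw [e] at this ⊢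
    have h2 := hn z hz
    nlinarith [sq_nonneg (A : ℤ), mul_le_mul_of_nonneg_right h2 (sq_nonneg (A : ℤ))]
  · intro z hz z' hz' hp y hy hy0 hq hc
    have hne : z ≠ z' := by
      rintro rfl
      obtain ⟨t, rfl⟩ := hT.surj z
      have : gram J (.inl (J.vt t)) (.inr (J.pk t)) = -1 := by
        simp only [gram]
        exact if_pos ⟨t, rfl, rfl⟩
      exact hp _ ⟨this, this⟩
    have hg : gram J (.inl z) (.inl z') = 0 := by
      by_contra h0
      obtain ⟨o, ho⟩ := hU.share z z' hne h0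
      exact hp o ho
    have hg' : gram J (.inl z') (.inl z) = 0 := by rw [hU.symm, hg]
    have := K y hy hy0 (Pi.single z 1 + Pi.single z' 1)
      (fun i hi => by
        rw [Pi.add_apply, Pi.single_eq_of_ne (fun e : i = z => hi (by rw [e]; exact hz)),
          Pi.single_eq_of_ne (fun e : i = z' => hi (by rw [e]; exact hz')), add_zero])
      ⟨z, by simp [hb0 z hz]⟩
      ((n z : ℤ) • Pi.single (.inl z) 1 + (n z' : ℤ) • Pi.single (.inl z') 1)
      (fun i => by
        by_cases e : i = z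
        · subst e; simp [hne]
        · by_cases e' : i = z'
          · subst e'; simp [e]
          · simp [e, e']) (fun o => by simp)
    rw [Finset.sum_eq_add z z' hne (fun i _ e => by simp [e.1, e.2]) (by simp) (by simp),
      Finset.sum_eq_add z z' hne (fun i _ e => by simp [e.1, e.2]) (by simp) (by simp)] at this
    simp only [bil_add_left, bil_add_right, bil_smul_left, bil_smul_right, bil_single_right,
      bil_single_left _ hU.symm, gr_add, gr_smul, gr_single, hU.diag, hg, hg', hq, hc.1, hc.2, Pi.add_apply,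
      Pi.single_eq_same, Pi.single_eq_of_ne hne, Pi.single_eq_of_ne hne.symm] at this
    have h2 := hn z hz
    have h3 := hn z' hz'
    push_cast at this
    nlinarith

end Pool.Agent.MP_bd94e8_al.H89
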